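import Pool.Agent.Y142.ZD.Stm

set_option autoImplicit false

/-!
Project OI (helper282), job TYPD2: the tame element acts as a transposition of two roots.
-/

open Matrix Polynomial Filter Topology NumberField IsDedekindDomain
open Pool.Agent.Y142.ZO Pool.Agent.Y142.ZI Pool.Agent.Y142.ZD

namespace Pool.Agent.Q211.OI.TYPD2

theorem charpoly_neg' {F : Type} [Field F] {m : ℕ} (A : Matrix (Fin m) (Fin m) F) :
    (-A).charpoly = (-1) ^ m * A.charpoly.comp (-X) := by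
  have h1 : A.charpoly.comp (-X) = (compRingHom (-X : F[X])) A.charpoly := rfl
  rw [h1, Matrix.charpoly, Matrix.charpoly, RingHom.map_det]
  have h2 : ((-1 : F[X]) ^ m) = (-1) ^ Fintype.card (Fin m) := by rw [Fintype.card_fin]
  rw [h2, ← Matrix.det_neg]
  congr 1
  ext i j
  by_cases h : i = j
  · subst h
    simp [charmatrix_apply_eq, add_comm]
  · simp [charmatrix_apply_ne _ _ _ h]

variable {ℓ : ℕ} [hℓ : Fact ℓ.Prime]

theorem l_ne : (ℓ : ℚ_[ℓ]) ≠ 0 := by exact_mod_cast hℓ.out.ne_zero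

theorem val_unit {u : ℚ_[ℓ]} (h : ‖u‖ = 1) : u ≠ 0 ∧ u.valuation = 0 := by
  have h0 : u ≠ 0 := by
    intro h1
    rw [h1, norm_zero] at h
    exact zero_ne_one h
  refine ⟨h0, ?_⟩
  rw [Padic.norm_eq_zpow_neg_valuation h0] at h
  have hp1 : (1 : ℝ) < ℓ := by exact_mod_cast hℓ.out.one_lt
  have h2 := (zpow_eq_one_iff_right₀ (by linarith) hp1.ne').1 h
  omega

theorem val_nat {n : ℕ} (h0 : 0 < n) (h : n < ℓ) : (n : ℚ_[ℓ]).valuation = 0 := by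
  rw [Padic.valuation_natCast, padicValNat.eq_zero_of_not_dvd (Nat.not_dvd_of_pos_of_lt h0 h)]
  rfl

/-- the squares of the rational roots -/
noncomputable def cc (m : ℕ) (u₁ u₂ : ℚ_[ℓ]) : Fin 2 ⊕ Fin (m - 2) → ℚ_[ℓ]
  | Sum.inl 0 => u₁ * (ℓ : ℚ_[ℓ]) ^ 2
  | Sum.inl 1 => u₂ * ((ℓ : ℚ_[ℓ]) ^ 2) ^ 2
  | Sum.inr i => (((i : ℕ) + 2 : ℕ) : ℚ_[ℓ]) ^ 2

theorem cc_ne {m : ℕ} (hm : 2 * m + 4 < ℓ) {u₁ u₂ : ℚ_[ℓ]} (h1 : ‖u₁‖ = 1) (h2 : ‖u₂‖ = 1)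
    (k : Fin 2 ⊕ Fin (m - 2)) : cc m u₁ u₂ k ≠ 0 := by
  have hl : (ℓ : ℚ_[ℓ]) ≠ 0 := l_ne
  obtain ⟨n1, -⟩ := val_unit h1
  obtain ⟨n2, -⟩ := val_unit h2
  rcases k with k | k
  · fin_cases k
    · exact mul_ne_zero n1 (pow_ne_zero _ hl)
    · exact mul_ne_zero n2 (pow_ne_zero _ (pow_ne_zero _ hl))
  · show ((((k : ℕ) + 2 : ℕ) : ℚ_[ℓ]) ^ 2) ≠ 0
    refine pow_ne_zero _ ?_
    exact_mod_cast (by omega : (k : ℕ) + 2 ≠ 0)

theorem cc_val {m : ℕ} (hm : 2 * m + 4 < ℓ) {u₁ u₂ : ℚ_[ℓ]} (h1 : ‖u₁‖ = 1) (h2 : ‖u₂‖ = 1) :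
    (cc m u₁ u₂ (Sum.inl 0)).valuation = 2 ∧ (cc m u₁ u₂ (Sum.inl 1)).valuation = 4 ∧
    ∀ i, (cc m u₁ u₂ (Sum.inr i)).valuation = 0 := by
  have hl : (ℓ : ℚ_[ℓ]) ≠ 0 := l_ne
  obtain ⟨n1, v1⟩ := val_unit h1
  obtain ⟨n2, v2⟩ := val_unit h2
  refine ⟨?_, ?_, fun i => ?_⟩
  · show (u₁ * (ℓ : ℚ_[ℓ]) ^ 2).valuation = 2
    rw [Padic.valuation_mul n1 (pow_ne_zero _ hl), Padic.valuation_pow, Padic.valuation_p, v1]
    norm_num
  · show (u₂ * ((ℓ : ℚ_[ℓ]) ^ 2) ^ 2).valuation = 4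
    rw [Padic.valuation_mul n2 (pow_ne_zero _ (pow_ne_zero _ hl)), Padic.valuation_pow,
      Padic.valuation_pow, Padic.valuation_p, v2]
    norm_num
  · show ((((i : ℕ) + 2 : ℕ) : ℚ_[ℓ]) ^ 2).valuation = 0
    have hi := i.2
    rw [Padic.valuation_pow, val_nat (by omega) (by omega)]
    norm_num

theorem cc_inj {m : ℕ} (hm : 2 * m + 4 < ℓ) {u₁ u₂ : ℚ_[ℓ]} (h1 : ‖u₁‖ = 1) (h2 : ‖u₂‖ = 1) :
    Function.Injective (cc (ℓ := ℓ) m u₁ u₂) := by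
  obtain ⟨w1, w2, w3⟩ := cc_val hm h1 h2
  intro a b hab
  have hv := congrArg Padic.valuation hab
  rcases a with a | a <;> rcases b with b | b
  · fin_cases a <;> fin_cases b
    · rfl
    · exact absurd (w1.symm.trans (hv.trans w2)) (by norm_num)
    · exact absurd (w2.symm.trans (hv.trans w1)) (by norm_num)
    · rfl
  · fin_cases a
    · exact absurd (w1.symm.trans (hv.trans (w3 b))) (by norm_num)
    · exact absurd (w2.symm.trans (hv.trans (w3 b))) (by norm_num)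
  · fin_cases b
    · exact absurd ((w3 a).symm.trans (hv.trans w1)) (by norm_num)
    · exact absurd ((w3 a).symm.trans (hv.trans w2)) (by norm_num)
  · have h3 : ((((a : ℕ) + 2 : ℕ) : ℚ_[ℓ]) ^ 2) = (((b : ℕ) + 2 : ℕ) : ℚ_[ℓ]) ^ 2 := hab
    have h4 : ((a : ℕ) + 2) ^ 2 = ((b : ℕ) + 2) ^ 2 := by exact_mod_cast h3
    have h5 := Nat.pow_left_injective (by norm_num : 2 ≠ 0) h4
    simp only [Nat.add_right_cancel_iff] at h5
    exact congrArg Sum.inr (Fin.ext h5)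

/-- `ℓ` is not a square -/
theorem not_sq (q : ℚ_[ℓ]) : q ^ 2 ≠ (ℓ : ℚ_[ℓ]) := by
  intro h
  have h1 := congrArg Padic.valuation h
  rw [Padic.valuation_pow, Padic.valuation_p] at h1
  push_cast at h1
  omega

section dist

variable {K : Type} [Field K] [CharZero K] (φ : ℚ_[ℓ] →+* K) {κ : Type} (c : κ → ℚ_[ℓ]) (r : K)

/-- the squares of the roots -/
noncomputable def dd : κ ⊕ Fin 2 → K
  | Sum.inl k => φ (c k)
  | Sum.inr 0 => (1 + r) ^ 2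
  | Sum.inr 1 => (1 - r) ^ 2

theorem r_ne (hr : r ^ 2 = φ (ℓ : ℚ_[ℓ])) (q : ℚ_[ℓ]) : φ q ≠ r := by
  intro h
  rw [← h, ← map_pow] at hr
  exact not_sq q (φ.injective hr)

theorem dd_ne (hr : r ^ 2 = φ (ℓ : ℚ_[ℓ])) (hc : ∀ k, c k ≠ 0) (j : κ ⊕ Fin 2) :
    dd φ c r j ≠ 0 := by
  rcases j with k | j
  · show φ (c k) ≠ 0
    exact (_root_.map_ne_zero φ).2 (hc k)
  · fin_cases j
    · show (1 + r) ^ 2 ≠ 0
      refine pow_ne_zero _ fun h => r_ne φ r hr (-1) ?_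
      rw [map_neg, map_one]
      linear_combination -h
    · show (1 - r) ^ 2 ≠ 0
      refine pow_ne_zero _ fun h => r_ne φ r hr 1 ?_
      rw [map_one]
      linear_combination h

theorem dd_inj (hr : r ^ 2 = φ (ℓ : ℚ_[ℓ])) (hc : Function.Injective c) :
    Function.Injective (dd φ c r) := by
  have h2 : (2 : K) ≠ 0 := two_ne_zero
  have e1 : ∀ q : ℚ_[ℓ], φ q ≠ (1 + r) ^ 2 := by
    intro q h
    refine r_ne φ r hr ((q - 1 - ℓ) / 2) ?_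
    rw [map_div₀, map_sub, map_sub, map_one, map_ofNat, ← hr, h]
    field_simp
    ring
  have e2 : ∀ q : ℚ_[ℓ], φ q ≠ (1 - r) ^ 2 := by
    intro q h
    refine r_ne φ r hr (-((q - 1 - ℓ) / 2)) ?_
    rw [map_neg, map_div₀, map_sub, map_sub, map_one, map_ofNat, ← hr, h]
    field_simp
    ring
  have e3 : (1 + r) ^ 2 ≠ (1 - r) ^ 2 := by
    intro h
    refine r_ne φ r hr 0 ?_
    rw [map_zero]
    have h4 : (4 : K) * r = 0 := by linear_combination h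
    rcases mul_eq_zero.1 h4 with h5 | h5
    · exact absurd h5 (by norm_num)
    · exact h5.symm
  intro a b hab
  rcases a with a | a <;> rcases b with b | b
  · exact congrArg Sum.inl (hc (φ.injective hab))
  · fin_cases b
    · exact absurd hab (e1 _)
    · exact absurd hab (e2 _)
  · fin_cases a
    · exact absurd hab.symm (e1 _)
    · exact absurd hab.symm (e2 _)
  · fin_cases a <;> fin_cases b
    · rfl
    · exact absurd hab e3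
    · exact absurd hab.symm e3
    · rfl

theorem sep_prod [Fintype κ] (hr : r ^ 2 = φ (ℓ : ℚ_[ℓ])) (hc0 : ∀ k, c k ≠ 0)
    (hc : Function.Injective c) : (∏ j, (X ^ 2 - C (dd φ c r j))).Separable := by
  refine separable_prod ?_ ?_
  · intro i j hij
    have h1 : dd φ c r i ≠ dd φ c r j := fun h => hij (dd_inj φ c r hr hc h)
    have h2 : dd φ c r j - dd φ c r i ≠ 0 := sub_ne_zero.2 h1.symm
    refine ⟨C ((dd φ c r j - dd φ c r i)⁻¹), -C ((dd φ c r j - dd φ c r i)⁻¹), ?_⟩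
    have h3 : C ((dd φ c r j - dd φ c r i)⁻¹) * (X ^ 2 - C (dd φ c r i)) +
        -C ((dd φ c r j - dd φ c r i)⁻¹) * (X ^ 2 - C (dd φ c r j)) =
        C ((dd φ c r j - dd φ c r i)⁻¹) * C (dd φ c r j - dd φ c r i) := by
      rw [C_sub]
      ring
    rw [h3, ← C_mul, inv_mul_cancel₀ h2, C_1]
  · intro j
    exact separable_X_pow_sub_C _ (by norm_num) (dd_ne φ c r hr hc0 j)

end dist

/-- the characteristic polynomial of `A` -/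
noncomputable def PA (ℓ : ℕ) [Fact ℓ.Prime] (m : ℕ) : ℚ_[ℓ][X] :=
  ((X - C 1) ^ 2 - C (ℓ : ℚ_[ℓ])) * ∏ i : Fin (m - 2), (X - C (((i : ℕ) + 2 : ℕ) : ℚ_[ℓ]))

theorem PA_monic_deg (m : ℕ) (hm : 2 ≤ m) : (PA ℓ m).Monic ∧ (PA ℓ m).natDegree = m := by
  have h1 : ((X - C (1 : ℚ_[ℓ])) ^ 2).natDegree = 2 := by
    rw [natDegree_pow, natDegree_X_sub_C]
  have h2 : ((X - C (1 : ℚ_[ℓ])) ^ 2 - C (ℓ : ℚ_[ℓ])).Monic := by
    refine ((monic_X_sub_C 1).pow 2).sub_of_left ?_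
    refine lt_of_le_of_lt degree_C_le ?_
    rw [← natDegree_pos_iff_degree_pos, h1]
    norm_num
  have h3 : ((X - C (1 : ℚ_[ℓ])) ^ 2 - C (ℓ : ℚ_[ℓ])).natDegree = 2 := by
    rw [natDegree_sub_C, h1]
  have h4 : (∏ i : Fin (m - 2), (X - C (((i : ℕ) + 2 : ℕ) : ℚ_[ℓ]))).Monic :=
    monic_prod_X_sub_C _ _
  have h5 : (∏ i : Fin (m - 2), (X - C (((i : ℕ) + 2 : ℕ) : ℚ_[ℓ]))).natDegree = m - 2 := by
    rw [natDegree_finsetProd_X_sub_C_eq_card]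
    simp
  refine ⟨h2.mul h4, ?_⟩
  unfold PA
  rw [h2.natDegree_mul h4, h3, h5]
  omega

theorem neg_char {m : ℕ} (hm : 2 ≤ m) (A : Matrix (Fin m) (Fin m) ℚ_[ℓ])
    (hA : A.charpoly = PA ℓ m) : (-A).charpoly =
      ((X + C 1) ^ 2 - C (ℓ : ℚ_[ℓ])) * ∏ i : Fin (m - 2), (X + C (((i : ℕ) + 2 : ℕ) : ℚ_[ℓ])) := by
  rw [charpoly_neg', hA]
  unfold PA
  rw [mul_comp, sub_comp, pow_comp, sub_comp, X_comp, C_comp, C_comp, prod_comp]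
  have h1 : ∀ i : Fin (m - 2), (X - C (((i : ℕ) + 2 : ℕ) : ℚ_[ℓ])).comp (-X) =
      (-1) * (X + C (((i : ℕ) + 2 : ℕ) : ℚ_[ℓ])) := by
    intro i
    rw [sub_comp, X_comp, C_comp]
    ring
  rw [Finset.prod_congr rfl fun i _ => h1 i, Finset.prod_mul_distrib, Finset.prod_const,
    Finset.card_univ, Fintype.card_fin]
  have h2 : ((-1 : ℚ_[ℓ][X]) ^ m) * (-1) ^ (m - 2) = 1 := by
    rw [← pow_add]
    have h3 : m + (m - 2) = 2 * (m - 1) := by omega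
    rw [h3, pow_mul]
    norm_num
  calc (-1 : ℚ_[ℓ][X]) ^ m * (((-X - C 1) ^ 2 - C (ℓ : ℚ_[ℓ])) *
        ((-1) ^ (m - 2) * ∏ i : Fin (m - 2), (X + C (((i : ℕ) + 2 : ℕ) : ℚ_[ℓ]))))
      = (((-1 : ℚ_[ℓ][X]) ^ m) * (-1) ^ (m - 2)) * (((X + C 1) ^ 2 - C (ℓ : ℚ_[ℓ])) *
        ∏ i : Fin (m - 2), (X + C (((i : ℕ) + 2 : ℕ) : ℚ_[ℓ]))) := by ring
    _ = _ := by rw [h2, one_mul]

theorem RA_map {m : ℕ} (hm : 2 ≤ m) (A : Matrix (Fin m) (Fin m) ℚ_[ℓ])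
    (hA : A.charpoly = PA ℓ m) (u₁ u₂ : ℚ_[ℓ]) {K : Type} [Field K] [CharZero K]
    (φ : ℚ_[ℓ] →+* K) (r : K) (hr : r ^ 2 = φ (ℓ : ℚ_[ℓ])) :
    (RA (u₁ * (ℓ : ℚ_[ℓ]) ^ 2) (u₂ * ((ℓ : ℚ_[ℓ]) ^ 2) ^ 2) A).map φ =
      ∏ j, (X ^ 2 - C (dd φ (cc m u₁ u₂) r j)) := by
  unfold RA
  rw [neg_char hm A hA, hA]
  unfold PA
  rw [Fintype.prod_sum_type, Fintype.prod_sum_type, Fin.prod_univ_two, Fin.prod_univ_two]
  have e1 : dd φ (cc m u₁ u₂) r (Sum.inl (Sum.inl 0)) = φ (u₁ * (ℓ : ℚ_[ℓ]) ^ 2) := rfl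
  have e2 : dd φ (cc m u₁ u₂) r (Sum.inl (Sum.inl 1)) = φ (u₂ * ((ℓ : ℚ_[ℓ]) ^ 2) ^ 2) := rfl
  have e3 : ∀ i, dd φ (cc m u₁ u₂) r (Sum.inl (Sum.inr i)) =
      φ ((((i : ℕ) + 2 : ℕ) : ℚ_[ℓ]) ^ 2) := fun i => rfl
  have e4 : dd φ (cc m u₁ u₂) r (Sum.inr 0) = (1 + r) ^ 2 := rfl
  have e5 : dd φ (cc m u₁ u₂) r (Sum.inr 1) = (1 - r) ^ 2 := rfl
  have e6 : ∀ i : Fin (m - 2), (X ^ 2 - C (dd φ (cc m u₁ u₂) r (Sum.inl (Sum.inr i)))) =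
      (X - C (φ (((i : ℕ) + 2 : ℕ) : ℚ_[ℓ]))) * (X + C (φ (((i : ℕ) + 2 : ℕ) : ℚ_[ℓ]))) := by
    intro i
    rw [e3, map_pow, map_pow]
    ring
  rw [Finset.prod_congr rfl fun i _ => e6 i, Finset.prod_mul_distrib, e1, e2, e4, e5]
  simp only [Polynomial.map_mul, Polynomial.map_sub, Polynomial.map_add, Polynomial.map_pow,
    Polynomial.map_X, Polynomial.map_C, Polynomial.map_prod]
  rw [map_one, ← hr]
  have e7 : ((X - C (1 : K)) ^ 2 - C (r ^ 2)) * ((X + C (1 : K)) ^ 2 - C (r ^ 2)) =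
      (X ^ 2 - C ((1 + r) ^ 2)) * (X ^ 2 - C ((1 - r) ^ 2)) := by
    simp only [map_pow, map_add, map_sub, C_1]
    ring
  have e8 : ∀ a b c d e f : K[X], a * b * (c * d) * (e * f) = a * b * (d * f) * (c * e) := by
    intros
    ring
  rw [e8, e7]

theorem t (hNR : Pool.Agent.Y142.ZD.S_NR) (hCOMP : Pool.Agent.Y142.ZI.S_COMP) :
    Pool.Agent.Y142.ZD.S_TYPD2 := by
  intro ℓ _ m hm hℓm u₁ u₂ h1 h2
  have hl : (ℓ : ℚ_[ℓ]) ≠ 0 := l_ne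
  obtain ⟨hP1, hP2⟩ := PA_monic_deg (ℓ := ℓ) m hm
  obtain ⟨A, hA⟩ := hCOMP ℚ_[ℓ] m (PA ℓ m) hP1 hP2
  obtain ⟨r, hr⟩ := IsAlgClosed.exists_pow_nat_eq
    (algebraMap ℚ_[ℓ] (AlgebraicClosure ℚ_[ℓ]) (ℓ : ℚ_[ℓ])) (by norm_num : 0 < 2)
  have : CharZero (AlgebraicClosure ℚ_[ℓ]) :=
    charZero_of_injective_algebraMap (algebraMap ℚ_[ℓ] (AlgebraicClosure ℚ_[ℓ])).injective
  have hmap := RA_map hm A hA u₁ u₂ (algebraMap ℚ_[ℓ] (AlgebraicClosure ℚ_[ℓ])) r hr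
  have hroot : ∀ z : AlgebraicClosure ℚ_[ℓ],
      aeval z (RA (u₁ * (ℓ : ℚ_[ℓ]) ^ 2) (u₂ * ((ℓ : ℚ_[ℓ]) ^ 2) ^ 2) A) = 0 ↔
        ∃ j, z ^ 2 = dd (algebraMap ℚ_[ℓ] (AlgebraicClosure ℚ_[ℓ])) (cc m u₁ u₂) r j := by
    intro z
    rw [← eval_map_algebraMap, hmap, eval_prod, Finset.prod_eq_zero_iff]
    constructor
    · rintro ⟨j, -, hj⟩
      refine ⟨j, ?_⟩
      rw [eval_sub, eval_pow, eval_X, eval_C] at hj
      exact sub_eq_zero.1 hj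
    · rintro ⟨j, hj⟩
      refine ⟨j, Finset.mem_univ _, ?_⟩
      rw [eval_sub, eval_pow, eval_X, eval_C]
      exact sub_eq_zero.2 hj
  refine ⟨(ℓ : ℚ_[ℓ]), (ℓ : ℚ_[ℓ]) ^ 2, A, hl, pow_ne_zero _ hl, ?_, ?_⟩
  · rw [← separable_map (algebraMap ℚ_[ℓ] (AlgebraicClosure ℚ_[ℓ])), hmap]
    exact sep_prod _ _ _ hr (cc_ne hℓm h1 h2) (cc_inj hℓm h1 h2)
  intro L τ hL hτ
  have h2ne : (2 : AlgebraicClosure ℚ_[ℓ]) ≠ 0 := two_ne_zero
  have hr0 : r ≠ 0 := by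
    intro h
    refine r_ne (algebraMap ℚ_[ℓ] (AlgebraicClosure ℚ_[ℓ])) r hr 0 ?_
    rw [map_zero, h]
  -- `τ r = -r`
  have hτr : τ r = -r := by
    have hsq : (τ r) ^ 2 = r ^ 2 := by
      rw [← map_pow, hr, map_natCast, map_natCast]
    rcases sq_eq_sq_iff_eq_or_eq_neg.1 hsq with h | h
    · exfalso
      have hk : ∀ k : ℕ, (τ ^ k) r = r := by
        intro k
        induction k with
        | zero => rw [pow_zero]; rfl
        | succ k ih => rw [pow_succ, AlgEquiv.mul_apply, h, ih]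
      obtain ⟨k, hk2⟩ := hτ 2 (ℓ : ℚ_[ℓ]) r (-r) hL (Padic.norm_p) hr (by rw [neg_sq]; exact hr)
      rw [hk k] at hk2
      have h3 : 2 * r = 0 := by linear_combination hk2
      rcases mul_eq_zero.1 h3 with h4 | h4
      · exact h2ne h4
      · exact hr0 h4
    · exact h
  have hfix : ∀ z ∈ NR ℓ, τ z = z := fun z hz => τ.commutes ⟨z, hz⟩
  have hl2 : ¬ ℓ ∣ 2 := fun h => by
    have := Nat.le_of_dvd (by norm_num) h
    omega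
  have hlK : (algebraMap ℚ_[ℓ] (AlgebraicClosure ℚ_[ℓ])) (ℓ : ℚ_[ℓ]) ≠ 0 := (_root_.map_ne_zero _).2 hl
  -- square roots of units times squares
  have hNRm : ∀ (u s : ℚ_[ℓ]) (z : AlgebraicClosure ℚ_[ℓ]), ‖u‖ = 1 → s ≠ 0 →
      z ^ 2 = algebraMap ℚ_[ℓ] (AlgebraicClosure ℚ_[ℓ]) (u * s ^ 2) → z ∈ NR ℓ := by
    intro u s z hu hs hz
    have hsK : (algebraMap ℚ_[ℓ] (AlgebraicClosure ℚ_[ℓ])) s ≠ 0 := (_root_.map_ne_zero _).2 hs
    have hy : (z / algebraMap ℚ_[ℓ] (AlgebraicClosure ℚ_[ℓ]) s) ^ 2 =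
        algebraMap ℚ_[ℓ] (AlgebraicClosure ℚ_[ℓ]) u := by
      rw [div_pow, hz, map_mul, map_pow]
      field_simp
    have hmem := (hNR ℓ).2.2 2 u _ (by norm_num) hl2 hu hy
    have e : z = (z / algebraMap ℚ_[ℓ] (AlgebraicClosure ℚ_[ℓ]) s) *
        algebraMap ℚ_[ℓ] (AlgebraicClosure ℚ_[ℓ]) s := by
      field_simp
    rw [e]
    exact (NR ℓ).mul_mem hmem ((NR ℓ).algebraMap_mem s)
  refine ⟨1 + r, 1 - r, (hroot _).2 ⟨Sum.inr 0, rfl⟩, (hroot _).2 ⟨Sum.inr 1, rfl⟩, ?_, ?_, ?_, ?_,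
    ?_⟩
  · intro h
    have h3 : 2 * r = 0 := by linear_combination -h
    rcases mul_eq_zero.1 h3 with h4 | h4
    · exact h2ne h4
    · exact hr0 h4
  · intro h
    exact h2ne (by linear_combination h)
  · rw [map_add, map_one, hτr]
    ring
  · rw [map_sub, map_one, hτr]
    ring
  · intro z hz hz1 hz2 hz3 hz4
    obtain ⟨j, hj⟩ := (hroot z).1 hz
    rcases j with j | j
    · rcases j with j | j
      · fin_cases j
        · exact hfix z (hNRm u₁ (ℓ : ℚ_[ℓ]) z h1 hl hj)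
        · exact hfix z (hNRm u₂ ((ℓ : ℚ_[ℓ]) ^ 2) z h2 (pow_ne_zero _ hl) hj)
      · have hj2 : z ^ 2 = (algebraMap ℚ_[ℓ] (AlgebraicClosure ℚ_[ℓ])
            (((j : ℕ) + 2 : ℕ) : ℚ_[ℓ])) ^ 2 := by
          rw [← map_pow]
          exact hj
        rcases sq_eq_sq_iff_eq_or_eq_neg.1 hj2 with h | h
        · exact hfix z (h ▸ (NR ℓ).algebraMap_mem _)
        · exact hfix z (h ▸ (NR ℓ).neg_mem ((NR ℓ).algebraMap_mem _))
    · fin_cases j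
      · have hj2 : z ^ 2 = (1 + r) ^ 2 := hj
        rcases sq_eq_sq_iff_eq_or_eq_neg.1 hj2 with h | h
        · exact absurd h hz1
        · exact absurd h hz2
      · have hj2 : z ^ 2 = (1 - r) ^ 2 := hj
        rcases sq_eq_sq_iff_eq_or_eq_neg.1 hj2 with h | h
        · exact absurd h hz3
        · exact absurd h hz4

end Pool.Agent.Q211.OI.TYPD2
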